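import Mathlib

/-! Definitions used in the statement of
`Pool.Agent.Results.MP_77ed85_an.SlowStabiliser.result`. -/

set_option autoImplicit false

namespace Pool.Agent.Lib.MP_77ed85_an

open Finset

/-- The shortest vectors of the lattices `a.g Z^d`, `a = diag(exp t)`, are at least
`exp (-ε ‖t‖)` for all large `t`, for one constant `ε < 1`. The condition (*) of the problem asks
for this for every `ε > 0`. -/
def RateBelowOne {d : ℕ} (g : Matrix (Fin d) (Fin d) ℝ) : Prop :=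
  ∃ ε : ℝ, ε < 1 ∧ ∃ R : ℝ, ∀ t : Fin d → ℝ, ∑ i, t i = 0 → R ≤ ‖t‖ →
     ∀ v : Fin d → ℤ, v ≠ 0 →
       Real.exp (-(ε * ‖t‖)) ≤
         ‖(Matrix.diagonal (fun i => Real.exp (t i)) * g).mulVec (fun i => (v i : ℝ))‖

/-- `diag(b)` maps the lattice `g Z^d` into itself. -/
def IsEndomorphism {d : ℕ} (g : Matrix (Fin d) (Fin d) ℝ) (b : Fin d → ℝ) : Prop :=
  ∃ δ : Matrix (Fin d) (Fin d) ℤ,
    Matrix.diagonal b * g = g * δ.map (fun z : ℤ => (z : ℝ))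

/-- The preimage in `SL(d,R)` of the orbit `L.x`, `x = g SL(d,Z)`. -/
def orbit {d : ℕ} (g : Matrix (Fin d) (Fin d) ℝ) (L : Set (Matrix (Fin d) (Fin d) ℝ)) :
    Set (Matrix (Fin d) (Fin d) ℝ) :=
  {M | ∃ l ∈ L, ∃ γ : Matrix (Fin d) (Fin d) ℤ, γ.det = 1 ∧
    M = l * g * γ.map (fun z : ℤ => (z : ℝ))}

/-- `L` is a closed subgroup of `SL(d,R)` in which the stabiliser of `x = g SL(d,Z)` is a lattice,
in the words of the frozen statement. -/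
def LatticeStabiliser {d : ℕ} (g : Matrix (Fin d) (Fin d) ℝ)
    (L : Set (Matrix (Fin d) (Fin d) ℝ)) : Prop :=
  IsClosed L ∧ (1 : Matrix (Fin d) (Fin d) ℝ) ∈ L ∧
    (∀ M ∈ L, ∀ N ∈ L, M * N ∈ L) ∧ (∀ M ∈ L, M⁻¹ ∈ L) ∧ (∀ M ∈ L, M.det = 1) ∧
    ∃ μ : MeasureTheory.Measure (Fin d → Fin d → ℝ),
      μ ≠ 0 ∧ μ Lᶜ = 0 ∧
      (∀ K : Set (Matrix (Fin d) (Fin d) ℝ), IsCompact K → μ K < ⊤) ∧
      (∀ l ∈ L, ∀ S : Set (Matrix (Fin d) (Fin d) ℝ),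
          @MeasurableSet (Fin d → Fin d → ℝ) _ S →
          μ {M : Matrix (Fin d) (Fin d) ℝ | l * M ∈ S} = μ S ∧
          μ {M : Matrix (Fin d) (Fin d) ℝ | M * l ∈ S} = μ S) ∧
      ∃ F : Set (Matrix (Fin d) (Fin d) ℝ),
        @MeasurableSet (Fin d → Fin d → ℝ) _ F ∧ F ⊆ L ∧ μ F < ⊤ ∧
        (∀ l ∈ L, ∃ γ : Matrix (Fin d) (Fin d) ℤ, γ.det = 1 ∧
            g * γ.map (fun z : ℤ => (z : ℝ)) * g⁻¹ ∈ L ∧
            l * (g * γ.map (fun z : ℤ => (z : ℝ)) * g⁻¹) ∈ F) ∧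
        (∀ γ : Matrix (Fin d) (Fin d) ℤ, γ.det = 1 →
            g * γ.map (fun z : ℤ => (z : ℝ)) * g⁻¹ ∈ L →
            g * γ.map (fun z : ℤ => (z : ℝ)) * g⁻¹ ≠ 1 →
            ∀ M ∈ F, M * (g * γ.map (fun z : ℤ => (z : ℝ)) * g⁻¹) ∉ F)

/-- The group `B` of the matrices `diag(exp s_i)` with `s` of sum `0` and `s_i = s_j` whenever
`a_i = a_j`. -/
def blockGroup {d : ℕ} (a : Fin d → ℝ) : Set (Matrix (Fin d) (Fin d) ℝ) :=
  {M | ∃ s : Fin d → ℝ, ∑ i, s i = 0 ∧ (∀ i j, a i = a j → s i = s j) ∧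
    M = Matrix.diagonal (fun i => Real.exp (s i))}

/-- The group `A` of the diagonal matrices of determinant `1` with positive entries. -/
def diagonalGroup (d : ℕ) : Set (Matrix (Fin d) (Fin d) ℝ) :=
  {M | ∃ t : Fin d → ℝ, ∑ i, t i = 0 ∧ M = Matrix.diagonal (fun i => Real.exp (t i))}

/-- The centraliser of `diag(a)` in `SL(d,R)`. -/
def centraliser {d : ℕ} (a : Fin d → ℝ) : Set (Matrix (Fin d) (Fin d) ℝ) :=
  {h | h.det = 1 ∧ h * Matrix.diagonal a = Matrix.diagonal a * h}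

end Pool.Agent.Lib.MP_77ed85_an
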