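import Pool.Agent.Lib.MP_77ed85_an.Defs

/-! Proof of `Pool.Agent.Results.MP_77ed85_an.SlowStabiliser.result`. -/

set_option autoImplicit false

namespace Pool.Agent.Lib.MP_77ed85_an

section

open Matrix Finset

/-- No non-zero lattice vector lies in a coordinate subspace of dimension at most `d/2`. -/
lemma contract {d : ℕ} {g : Matrix (Fin d) (Fin d) ℝ} (h : RateBelowOne g) (hg : g.det = 1)
    (I : Finset (Fin d)) (hI : 2 * I.card ≤ d)
    (v : Fin d → ℤ) (hv : v ≠ 0) (h0 : ∀ i ∉ I, (g.mulVec (fun j => (v j : ℝ))) i = 0) : False := by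
  classical
  set w := g.mulVec (fun j => (v j : ℝ)) with hw
  rcases I.eq_empty_or_nonempty with rfl | ⟨i0, hi0⟩
  · have hw0 : w = 0 := by ext i; exact h0 i (by simp)
    have hu : IsUnit g.det := by rw [hg]; exact isUnit_one
    have h1 : (g⁻¹).mulVec w = fun j => (v j : ℝ) := by
      rw [hw, Matrix.mulVec_mulVec, Matrix.nonsing_inv_mul g hu, Matrix.one_mulVec]
    rw [hw0, Matrix.mulVec_zero] at h1
    apply hv
    ext j
    have := congrFun h1 j
    simp only [Pi.zero_apply] at this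
    exact_mod_cast this.symm
  · obtain ⟨ε, hε, R, hR⟩ := h
    set k : ℕ := I.card with hk
    have hk1 : 1 ≤ k := Finset.card_pos.2 ⟨i0, hi0⟩
    have hkR : (1 : ℝ) ≤ k := by exact_mod_cast hk1
    have hdk : (2 : ℝ) * k ≤ d := by exact_mod_cast hI
    have hdk0 : (0 : ℝ) < d - k := by linarith
    obtain ⟨T, hT⟩ : ∃ T : ℝ, T = max (max R 0) (‖w‖ / (1 - ε)) := ⟨_, rfl⟩
    have hTR : R ≤ T := by rw [hT]; exact (le_max_left _ _).trans (le_max_left _ _)
    have hT0 : 0 ≤ T := by rw [hT]; exact (le_max_right _ _).trans (le_max_left _ _)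
    have hTw : ‖w‖ / (1 - ε) ≤ T := by rw [hT]; exact le_max_right _ _
    set t : Fin d → ℝ := fun j => if j ∈ I then -T else k * T / (d - k) with ht
    have hsum : ∑ j, t j = 0 := by
      simp only [ht]
      rw [Finset.sum_ite]
      simp only [Finset.sum_const, nsmul_eq_mul]
      have h1 : (univ.filter (fun j => j ∈ I)) = I := by ext j; simp
      have h2 : (univ.filter (fun j => j ∉ I)).card = d - k := by
        have h3 := Finset.card_filter_add_card_filter_not (s := (univ : Finset (Fin d)))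
          (fun j => j ∈ I)
        rw [h1, Finset.card_univ, Fintype.card_fin] at h3
        omega
      rw [h1, h2, Nat.cast_sub (by omega)]
      rw [← hk]
      field_simp
      ring
    have hn : ‖t‖ = T := by
      apply le_antisymm
      · rw [pi_norm_le_iff_of_nonneg hT0]
        intro j
        simp only [ht]
        split_ifs
        · rw [norm_neg, Real.norm_of_nonneg hT0]
        · rw [Real.norm_of_nonneg (by positivity), div_le_iff₀ hdk0]
          nlinarith
      · have h1 := norm_le_pi_norm t i0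
        have h2 : t i0 = -T := by simp [ht, hi0]
        rw [h2, norm_neg, Real.norm_of_nonneg hT0] at h1
        exact h1
    have h1 := hR t hsum (by rw [hn]; exact hTR) v hv
    have h2 : ‖(Matrix.diagonal (fun i => Real.exp (t i)) * g).mulVec (fun i => (v i : ℝ))‖
        ≤ Real.exp (-T) * ‖w‖ := by
      rw [pi_norm_le_iff_of_nonneg (by positivity)]
      intro j
      rw [← Matrix.mulVec_mulVec, ← hw, Matrix.mulVec_diagonal]
      by_cases hj : j ∈ I
      · have : t j = -T := by simp [ht, hj]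
        rw [this, norm_mul, Real.norm_of_nonneg (Real.exp_nonneg _)]
        exact mul_le_mul_of_nonneg_left (norm_le_pi_norm w j) (Real.exp_nonneg _)
      · rw [h0 j hj, mul_zero, norm_zero]; positivity
    rw [hn] at h1
    have h5 : Real.exp (-(ε * T)) ≤ Real.exp (-T) * ‖w‖ := h1.trans h2
    have h6 : Real.exp ((1 - ε) * T) ≤ ‖w‖ := by
      have h7 := mul_le_mul_of_nonneg_left h5 (Real.exp_nonneg T)
      rw [← Real.exp_add, ← mul_assoc, ← Real.exp_add] at h7
      have e1 : T + -(ε * T) = (1 - ε) * T := by ring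
      have e2 : T + -T = 0 := by ring
      rw [e1, e2, Real.exp_zero, one_mul] at h7
      exact h7
    have h8 := Real.add_one_le_exp ((1 - ε) * T)
    have h9 : ‖w‖ ≤ (1 - ε) * T := by
      rw [div_le_iff₀ (by linarith)] at hTw
      linarith
    linarith

/-- A matrix with `g M = diag(y) g`, `y` vanishing somewhere, vanishes. -/
lemma eq_zero_of {d : ℕ} {g : Matrix (Fin d) (Fin d) ℝ} (h : RateBelowOne g)
    (hg : g.det = 1) (M : Matrix (Fin d) (Fin d) ℤ) (y : Fin d → ℝ)
    (hM : g * M.map (fun z : ℤ => (z : ℝ)) = Matrix.diagonal y * g) (i : Fin d) (hi : y i = 0) :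
    y = 0 := by
  classical
  have hu : IsUnit g.det := by rw [hg]; exact isUnit_one
  by_contra hy
  set I : Finset (Fin d) := univ.filter (fun j => y j = 0) with hI
  rcases le_or_gt (2 * I.card) d with hc | hc
  · -- the kernel of `M`
    have hdet : M.det = 0 := by
      have h1 := congrArg Matrix.det hM
      rw [Matrix.det_mul, Matrix.det_mul, hg, one_mul, mul_one, Matrix.det_diagonal] at h1
      have h2 : (M.map (fun z : ℤ => (z : ℝ))).det = ((M.det : ℤ) : ℝ) :=
        ((Int.castRingHom ℝ).map_det M).symm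
      rw [h2, Finset.prod_eq_zero (Finset.mem_univ i) hi] at h1
      exact_mod_cast h1
    obtain ⟨v, hv, hMv⟩ := Matrix.exists_mulVec_eq_zero_iff.2 hdet
    apply contract h hg I hc v hv
    intro j hj
    have hyj : y j ≠ 0 := by simpa [hI] using hj
    have h1 : (M.map (fun z : ℤ => (z : ℝ))).mulVec (fun j => (v j : ℝ)) = 0 := by
      ext b
      have := congrFun hMv b
      simp only [Matrix.mulVec, dotProduct, Pi.zero_apply, Matrix.map_apply] at this ⊢
      exact_mod_cast this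
    have h2 : (g * M.map (fun z : ℤ => (z : ℝ))).mulVec (fun j => (v j : ℝ)) = 0 := by
      rw [← Matrix.mulVec_mulVec, h1, Matrix.mulVec_zero]
    rw [hM, ← Matrix.mulVec_mulVec] at h2
    have h3 := congrFun h2 j
    rw [Matrix.mulVec_diagonal, Pi.zero_apply] at h3
    exact (mul_eq_zero.1 h3).resolve_left hyj
  · -- the image of `M`
    have hM0 : M ≠ 0 := by
      rintro rfl
      apply hy
      have h3 : Matrix.diagonal y * g = 0 := by
        rw [← hM]; simp
      have h4 := congrArg (· * g⁻¹) h3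
      simp only [Matrix.mul_assoc, Matrix.mul_nonsing_inv g hu, Matrix.mul_one,
        Matrix.zero_mul] at h4
      ext j
      have := congrFun (congrFun h4 j) j
      simpa using this
    obtain ⟨b, hb⟩ : ∃ b, (fun a => M a b) ≠ 0 := by
      by_contra hcon
      push Not at hcon
      apply hM0
      ext a b
      exact congrFun (hcon b) a
    have hcc : 2 * (Iᶜ).card ≤ d := by
      rw [Finset.card_compl, Fintype.card_fin]; omega
    apply contract h hg Iᶜ hcc _ hb
    intro j hj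
    have hyj : y j = 0 := by simpa [hI] using hj
    have h2 : (g.mulVec fun a => ((M a b : ℤ) : ℝ)) j = (g * M.map (fun z : ℤ => (z : ℝ))) j b := by
      simp [Matrix.mul_apply, Matrix.mulVec, dotProduct]
    rw [h2, hM]
    simp [Matrix.diagonal_mul, hyj]

end

end Pool.Agent.Lib.MP_77ed85_an

namespace Pool.Agent.Lib.MP_77ed85_an

section

open Polynomial Finset

/-- From integer polynomials to rational ones. -/
lemma zeros_rat {d : ℕ} {a : Fin d → ℝ}
    (hZ : ∀ Q : ℤ[X], ∀ i, aeval (a i) Q = 0 → ∀ j, aeval (a j) Q = 0)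
    (Q : ℚ[X]) (i : Fin d) (hi : aeval (a i) Q = 0) (j : Fin d) : aeval (a j) Q = 0 := by
  obtain ⟨b, hbm, hb⟩ := IsLocalization.integerNormalization_spec (nonZeroDivisors ℤ) Q
  set Q' := IsLocalization.integerNormalization (nonZeroDivisors ℤ) Q with hQ'
  have hb0 : ((b : ℤ) : ℝ) ≠ 0 := by
    have := nonZeroDivisors.ne_zero hbm
    exact_mod_cast this
  have key : ∀ x : ℝ, aeval x Q' = ((b : ℤ) : ℝ) * aeval x Q := by
    intro x
    have h1 : aeval x Q' = aeval x (Q'.map (algebraMap ℤ ℚ)) := by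
      rw [aeval_map_algebraMap]
    rw [h1, hb]
    rw [map_zsmul, zsmul_eq_mul]
  have h2 : aeval (a i) Q' = 0 := by rw [key, hi, mul_zero]
  have h3 := hZ Q' i h2 j
  rw [key] at h3
  exact (mul_eq_zero.1 h3).resolve_left hb0

/-- If every integer polynomial that vanishes at one `a_i` vanishes at all of them, all values of
`a` are taken equally often. -/
lemma equal_fibres {d : ℕ} {a : Fin d → ℝ} (χ : ℤ[X])
    (hχ : χ.map (Int.castRingHom ℝ) = ∏ i, (X - C (a i)))
    (hZ : ∀ Q : ℤ[X], ∀ i, aeval (a i) Q = 0 → ∀ j, aeval (a j) Q = 0) :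
    ∃ m : ℕ, (∀ i, (univ.filter (fun j => a j = a i)).card = m) ∧
      ∀ i, χ.map (Int.castRingHom ℚ) = minpoly ℚ (a i) ^ m := by
  rcases isEmpty_or_nonempty (Fin d) with hE | ⟨⟨i0⟩⟩
  · exact ⟨0, fun i => (hE.false i).elim, fun i => (hE.false i).elim⟩
  set χQ : ℚ[X] := χ.map (Int.castRingHom ℚ) with hχQ
  have hχR : χQ.map (algebraMap ℚ ℝ) = ∏ i, (X - C (a i)) := by
    rw [hχQ, Polynomial.map_map, ← hχ]
    congr 1
  have hmon : (∏ i, (X - C (a i))).Monic := monic_prod_of_monic _ _ fun i _ => monic_X_sub_C _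
  have hχmon : χQ.Monic := by
    have : (χQ.map (algebraMap ℚ ℝ)).Monic := by rw [hχR]; exact hmon
    exact (Polynomial.monic_map_iff (f := algebraMap ℚ ℝ)).1 this
  have hroot : ∀ i, aeval (a i) χQ = 0 := by
    intro i
    have h1 : aeval (a i) χQ = eval (a i) (χQ.map (algebraMap ℚ ℝ)) := by
      rw [eval_map_algebraMap]
    rw [h1, hχR, eval_prod]
    exact Finset.prod_eq_zero (Finset.mem_univ i) (by simp)
  have hint : ∀ i, IsIntegral ℚ (a i) := fun i => ⟨χQ, hχmon, by
    have := hroot i; rwa [aeval_def] at this⟩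
  set p := minpoly ℚ (a i0) with hp
  have hpirr : Irreducible p := minpoly.irreducible (hint i0)
  have hpmon : p.Monic := minpoly.monic (hint i0)
  have hpj : ∀ j, p = minpoly ℚ (a j) := fun j =>
    minpoly.eq_of_irreducible_of_monic hpirr
      (zeros_rat hZ p i0 (minpoly.aeval ℚ (a i0)) j) hpmon
  have hfin : FiniteMultiplicity p χQ :=
    FiniteMultiplicity.of_not_isUnit hpirr.not_isUnit hχmon.ne_zero
  obtain ⟨q, hq, hnd⟩ := hfin.exists_eq_pow_mul_and_not_dvd
  set m := multiplicity p χQ with hm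
  have hpR : (p.map (algebraMap ℚ ℝ)) ≠ 0 := by
    rw [Ne, Polynomial.map_eq_zero]; exact hpirr.ne_zero
  have hq0 : q ≠ 0 := by
    rintro rfl; exact hnd (dvd_zero _)
  have hqR : (q.map (algebraMap ℚ ℝ)) ≠ 0 := by
    rw [Ne, Polynomial.map_eq_zero]; exact hq0
  have hroots : (∏ i, (X - C (a i))).roots = (univ : Finset (Fin d)).val.map a := by
    have h1 : (∏ i, (X - C (a i))) = (((univ : Finset (Fin d)).val.map a).map
        fun x => X - C x).prod := by
      rw [Multiset.map_map]; rfl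
    rw [h1, roots_multiset_prod_X_sub_C]
  have hsplit : (χQ.map (algebraMap ℚ ℝ)).roots
      = m • (p.map (algebraMap ℚ ℝ)).roots + (q.map (algebraMap ℚ ℝ)).roots := by
    rw [hq, Polynomial.map_mul, Polynomial.map_pow,
      roots_mul (mul_ne_zero (pow_ne_zero _ hpR) hqR), roots_pow]
  have hqno : (q.map (algebraMap ℚ ℝ)).roots = 0 := by
    apply Multiset.eq_zero_of_forall_notMem
    intro x hx
    have h1 : x ∈ (χQ.map (algebraMap ℚ ℝ)).roots := by
      rw [hsplit]; exact Multiset.mem_add.2 (Or.inr hx)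
    rw [hχR, hroots, Multiset.mem_map] at h1
    obtain ⟨j, _, rfl⟩ := h1
    rw [mem_roots hqR, IsRoot.def, eval_map_algebraMap] at hx
    apply hnd
    rw [hpj j]
    exact minpoly.dvd ℚ (a j) hx
  have hqdeg : q.natDegree = 0 := by
    have e1 : (χQ.map (algebraMap ℚ ℝ)).roots.card = d := by
      rw [hχR, hroots]; simp
    have e2 : χQ.natDegree = d := by
      have : (χQ.map (algebraMap ℚ ℝ)).natDegree = χQ.natDegree := natDegree_map _
      rw [← this, hχR, natDegree_prod_of_monic _ _ fun i _ => monic_X_sub_C _]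
      simp
    have e3 : χQ.natDegree = m * p.natDegree + q.natDegree := by
      conv_lhs => rw [hq]
      rw [natDegree_mul (pow_ne_zero _ hpirr.ne_zero) hq0, natDegree_pow]
    have e4 : (p.map (algebraMap ℚ ℝ)).roots.card ≤ p.natDegree := by
      have := card_roots' (p.map (algebraMap ℚ ℝ))
      rwa [natDegree_map] at this
    rw [hsplit, hqno, add_zero, Multiset.card_nsmul] at e1
    have e5 : m * (p.map (algebraMap ℚ ℝ)).roots.card ≤ m * p.natDegree :=
      Nat.mul_le_mul_left _ e4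
    have e6 : m * (p.map (algebraMap ℚ ℝ)).roots.card = d := by simpa using e1
    omega
  have hqone : q = 1 := by
    have hpm : (p ^ m).Monic := hpmon.pow m
    have hqm : q.Monic := by
      apply hpm.of_mul_monic_left
      rw [← hq]; exact hχmon
    exact hqm.natDegree_eq_zero.1 hqdeg
  refine ⟨m, fun i => ?_, fun i => by rw [← hpj i]; rw [hqone, mul_one] at hq; exact hq⟩
  have hcount : (univ.filter (fun j => a j = a i)).card
      = Multiset.count (a i) (χQ.map (algebraMap ℚ ℝ)).roots := by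
    rw [hχR, hroots, Multiset.count_map]
    rw [← Finset.filter_val, Finset.card_val]
    congr 1
    ext j
    simp [eq_comm]
  rw [hcount, hsplit, Multiset.count_add, Multiset.count_nsmul]
  have h1 : Multiset.count (a i) (p.map (algebraMap ℚ ℝ)).roots = 1 := by
    apply Multiset.count_eq_one_of_mem
    · exact nodup_roots (hpirr.separable.map)
    · rw [mem_roots hpR, IsRoot.def, eval_map_algebraMap, hpj i]
      exact minpoly.aeval ℚ (a i)
  rw [h1, hqno]; simp

end

end Pool.Agent.Lib.MP_77ed85_an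

namespace Pool.Agent.Lib.MP_77ed85_an

section

open MeasureTheory Matrix Finset

/-- Minkowski's theorem for the lattice of values of integer polynomials of degree `< k` at `k`
distinct real points. -/
lemma minkowski {k : ℕ} (hk : 0 < k) (e : Fin k → ℝ) (he : Function.Injective e) :
    ∃ B : ℝ, 1 ≤ B ∧ ∀ s : Fin k → ℝ, ∑ j, s j = 0 → ∃ c : Fin k → ℤ,
      (∃ j, ∑ l, (c l : ℝ) * e j ^ (l : ℕ) ≠ 0) ∧
      ∀ j, |∑ l, (c l : ℝ) * e j ^ (l : ℕ)| ≤ B * Real.exp (s j) := by
  classical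
  have hdet : (vandermonde e).det ≠ 0 := det_vandermonde_ne_zero_iff.2 he
  have hli : LinearIndependent ℝ (vandermonde e).col :=
    Matrix.linearIndependent_cols_of_det_ne_zero hdet
  have : Nonempty (Fin k) := ⟨⟨0, hk⟩⟩
  let b : Module.Basis (Fin k) ℝ (Fin k → ℝ) :=
    basisOfLinearIndependentOfCardEqFinrank hli (by simp)
  have hb : ∀ l, b l = fun j => e j ^ (l : ℕ) := by
    intro l
    have : b l = (vandermonde e).col l := by
      simp [b]
    rw [this]
    ext j
    simp [vandermonde]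
  let L : AddSubgroup (Fin k → ℝ) := (Submodule.span ℤ (Set.range b)).toAddSubgroup
  have hfund : IsAddFundamentalDomain L (ZSpan.fundamentalDomain b) (volume : Measure (Fin k → ℝ)) :=
    ZSpan.isAddFundamentalDomain b volume
  have hfin : (volume : Measure (Fin k → ℝ)) (ZSpan.fundamentalDomain b) < ⊤ :=
    (ZSpan.fundamentalDomain_isBounded b).measure_lt_top
  set v : ℝ := ((volume : Measure (Fin k → ℝ)) (ZSpan.fundamentalDomain b)).toReal with hv
  have hv0 : 0 ≤ v := ENNReal.toReal_nonneg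
  refine ⟨v + 1, by linarith, fun s hs => ?_⟩
  set B : ℝ := v + 1 with hB
  have hB1 : 1 ≤ B := by linarith
  set S : Set (Fin k → ℝ) :=
    Set.pi Set.univ (fun j => Set.Ioo (-(B * Real.exp (s j))) (B * Real.exp (s j))) with hS
  have hvol : (volume : Measure (Fin k → ℝ)) S = ENNReal.ofReal ((2 * B) ^ k) := by
    rw [hS, Real.volume_pi_Ioo, ← ENNReal.ofReal_prod_of_nonneg]
    · congr 1
      have : ∀ j, B * Real.exp (s j) - -(B * Real.exp (s j)) = (2 * B) * Real.exp (s j) := by
        intro j; ring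
      simp only [this]
      rw [Finset.prod_mul_distrib, ← Real.exp_sum, hs, Real.exp_zero, mul_one]
      simp
    · intro j _
      have := Real.exp_pos (s j)
      nlinarith [mul_pos (lt_of_lt_of_le one_pos hB1) this]
  have hsymm : ∀ x ∈ S, -x ∈ S := by
    intro x hx j hj
    have := hx j hj
    simp only [Set.mem_Ioo, Pi.neg_apply] at this ⊢
    constructor <;> linarith [this.1, this.2]
  have hconv : Convex ℝ S := convex_pi fun j _ => convex_Ioo _ _
  have hlt : (volume : Measure (Fin k → ℝ)) (ZSpan.fundamentalDomain b) *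
      2 ^ Module.finrank ℝ (Fin k → ℝ) < (volume : Measure (Fin k → ℝ)) S := by
    rw [hvol, Module.finrank_fin_fun, mul_pow, ENNReal.ofReal_mul (by positivity), mul_comm]
    have h2 : ENNReal.ofReal ((2 : ℝ) ^ k) = 2 ^ k := by
      rw [ENNReal.ofReal_pow (by norm_num)]; simp
    rw [h2]
    apply ENNReal.mul_lt_mul_right (by simp) (by finiteness)
    rw [← ENNReal.ofReal_toReal hfin.ne, ← hv]
    apply (ENNReal.ofReal_lt_ofReal_iff (by positivity)).2
    calc v < B := by linarith
      _ = B ^ 1 := (pow_one B).symm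
      _ ≤ B ^ k := pow_le_pow_right₀ hB1 hk
  have hcount : Countable L := by
    change Countable (Submodule.span ℤ (Set.range b))
    infer_instance
  obtain ⟨x, hx0, hxS⟩ :=
    exists_ne_zero_mem_lattice_of_measure_mul_two_pow_lt_measure hfund hsymm hconv hlt
  have hxL : (x : Fin k → ℝ) ∈ Submodule.span ℤ (Set.range b) := x.2
  rw [Submodule.mem_span_range_iff_exists_fun] at hxL
  obtain ⟨c, hc⟩ := hxL
  have hval : ∀ j, (x : Fin k → ℝ) j = ∑ l, (c l : ℝ) * e j ^ (l : ℕ) := by
    intro j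
    rw [← hc, Finset.sum_apply]
    refine Finset.sum_congr rfl fun l _ => ?_
    rw [hb l, Pi.smul_apply, zsmul_eq_mul]
  refine ⟨c, ?_, fun j => ?_⟩
  · by_contra hcon
    push Not at hcon
    apply hx0
    apply Subtype.ext
    ext j
    rw [hval j, hcon j]; rfl
  · have := hxS j (Set.mem_univ j)
    rw [← hval j]
    simp only [Set.mem_Ioo] at this
    exact abs_le.2 ⟨this.1.le, this.2.le⟩

end

end Pool.Agent.Lib.MP_77ed85_an

namespace Pool.Agent.Lib.MP_77ed85_an

section

open Matrix Finset Polynomial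

/-- Coercion of an integer matrix to a real one. -/
abbrev toR {d : ℕ} (M : Matrix (Fin d) (Fin d) ℤ) : Matrix (Fin d) (Fin d) ℝ :=
  M.map (fun z : ℤ => (z : ℝ))

lemma toR_eq {d : ℕ} (M : Matrix (Fin d) (Fin d) ℤ) :
    toR M = (Int.castRingHom ℝ).mapMatrix M := rfl

lemma toR_mul {d : ℕ} (M N : Matrix (Fin d) (Fin d) ℤ) : toR (M * N) = toR M * toR N := by
  rw [toR_eq, map_mul]; rfl

lemma toR_det {d : ℕ} (M : Matrix (Fin d) (Fin d) ℤ) : (toR M).det = ((M.det : ℤ) : ℝ) := by
  rw [toR_eq]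
  exact ((Int.castRingHom ℝ).map_det M).symm

/-- `g P(γ) = diag(P(a_i)) g` if `g γ = diag(a_i) g`. -/
lemma inter {d : ℕ} {g : Matrix (Fin d) (Fin d) ℝ} {γ : Matrix (Fin d) (Fin d) ℤ}
    {a : Fin d → ℝ} (hfix : g * toR γ = Matrix.diagonal a * g) (P : ℤ[X]) :
    g * toR (aeval γ P) = Matrix.diagonal (fun i => aeval (a i) P) * g := by
  have hpow : ∀ n : ℕ, g * (toR γ) ^ n = Matrix.diagonal (fun i => a i ^ n) * g := by
    intro n
    induction n with
    | zero => simp
    | succ n ih =>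
      rw [pow_succ, ← Matrix.mul_assoc, ih, Matrix.mul_assoc, hfix, ← Matrix.mul_assoc,
        Matrix.diagonal_mul_diagonal]
      simp [pow_succ]
  induction P using Polynomial.induction_on' with
  | add p q hp hq =>
    have h1 : toR (aeval γ (p + q)) = toR (aeval γ p) + toR (aeval γ q) := by
      rw [map_add, toR_eq, map_add]; rfl
    rw [h1, Matrix.mul_add, hp, hq, ← Matrix.add_mul, Matrix.diagonal_add]
    simp
  | monomial n z =>
    have h1 : toR (aeval γ (monomial n z)) = (z : ℝ) • (toR γ) ^ n := by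
      rw [aeval_monomial, toR_eq, map_mul, map_pow]
      have : (Int.castRingHom ℝ).mapMatrix (algebraMap ℤ (Matrix (Fin d) (Fin d) ℤ) z)
          = (z : ℝ) • (1 : Matrix (Fin d) (Fin d) ℝ) := by
        rw [Algebra.algebraMap_eq_smul_one]
        ext i j
        simp only [RingHom.mapMatrix_apply, Matrix.map_apply, Matrix.smul_apply, Matrix.one_apply,
          smul_eq_mul]
        split_ifs <;> simp
      rw [this, smul_mul_assoc, one_mul]
      rfl
    rw [h1, Matrix.mul_smul, hpow n, ← Matrix.smul_mul]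
    congr 1
    ext i j
    simp only [Matrix.smul_apply, Matrix.diagonal_apply, smul_eq_mul]
    split_ifs
    · simp [aeval_monomial]
    · simp

/-- The matrix `Σ c_l γ^l`. -/
noncomputable def Mc {d k : ℕ} (γ : Matrix (Fin d) (Fin d) ℤ) (c : Fin k → ℤ) :
    Matrix (Fin d) (Fin d) ℤ := ∑ l, c l • γ ^ (l : ℕ)

lemma inter_Mc {d k : ℕ} {g : Matrix (Fin d) (Fin d) ℝ} {γ : Matrix (Fin d) (Fin d) ℤ}
    {a : Fin d → ℝ} (hfix : g * toR γ = Matrix.diagonal a * g) (c : Fin k → ℤ) :
    g * toR (Mc γ c) = Matrix.diagonal (fun i => ∑ l, (c l : ℝ) * a i ^ (l : ℕ)) * g := by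
  have h1 : aeval γ (∑ l : Fin k, Polynomial.C (c l) * X ^ (l : ℕ)) = Mc γ c := by
    rw [Mc, map_sum]
    refine Finset.sum_congr rfl fun l _ => ?_
    rw [map_mul, map_pow, aeval_X, aeval_C]
    rw [Algebra.algebraMap_eq_smul_one, smul_mul_assoc, one_mul]
  have h2 := inter hfix (∑ l : Fin k, Polynomial.C (c l) * X ^ (l : ℕ))
  rw [h1] at h2
  rw [h2]
  congr 1
  congr 1
  ext i
  rw [map_sum]
  refine Finset.sum_congr rfl fun l _ => ?_
  simp

lemma Mc_add_smul {d k : ℕ} (γ : Matrix (Fin d) (Fin d) ℤ) (c r : Fin k → ℤ) (D : ℤ) :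
    Mc γ (fun l => c l + D * r l) = Mc γ c + D • Mc γ r := by
  simp only [Mc]
  rw [Finset.smul_sum, ← Finset.sum_add_distrib]
  refine Finset.sum_congr rfl fun l _ => ?_
  rw [add_smul, mul_smul]

lemma cocompact {d k : ℕ} (hd : 2 ≤ d) {g : Matrix (Fin d) (Fin d) ℝ}
    (hslow : RateBelowOne g) (hg : g.det = 1) (γ : Matrix (Fin d) (Fin d) ℤ)
    (e : Fin k → ℝ) (he : Function.Injective e) (π : Fin d → Fin k)
    (hπ : Function.Surjective π) (hfix : g * toR γ = Matrix.diagonal (fun i => e (π i)) * g) :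
    ∃ r : ℝ, ∀ σ : Fin k → ℝ, ∑ j, σ j = 0 → ∑ i, σ (π i) = 0 → ∃ s' : Fin k → ℝ,
      ∑ i, s' (π i) = 0 ∧ (∀ i, |s' (π i)| ≤ r) ∧ ∃ γ' : Matrix (Fin d) (Fin d) ℤ, γ'.det = 1 ∧
      Matrix.diagonal (fun i => Real.exp (σ (π i))) * g =
        Matrix.diagonal (fun i => Real.exp (s' (π i))) * g * toR γ' := by
  classical
  have hk : 0 < k := by
    have := (π ⟨0, by omega⟩).2
    omega
  obtain ⟨B, hB1, hB⟩ := minkowski hk e he
  -- the parameters
  let S : Type := {s : Fin k → ℝ // ∑ j, s j = 0 ∧ ∑ i, s (π i) = 0}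
  choose c hc0 hc using fun s : S => hB s.1 s.2.1
  set y : S → Fin k → ℝ := fun s j => ∑ l, (c s l : ℝ) * e j ^ (l : ℕ) with hy
  have hM : ∀ s : S, g * toR (Mc γ (c s)) = Matrix.diagonal (fun i => y s (π i)) * g :=
    fun s => inter_Mc hfix (c s)
  have hyne : ∀ s : S, ∀ i, y s (π i) ≠ 0 := by
    intro s i h0
    have h1 := eq_zero_of hslow hg (Mc γ (c s)) (fun i => y s (π i)) (hM s) i h0
    obtain ⟨j, hj⟩ := hc0 s
    obtain ⟨i', hi'⟩ := hπ j
    apply hj
    have := congrFun h1 i'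
    simp only [Pi.zero_apply] at this
    rw [hi'] at this
    exact this
  have hdetprod : ∀ s : S, ∏ i, y s (π i) = (((Mc γ (c s)).det : ℤ) : ℝ) := by
    intro s
    have h1 := congrArg Matrix.det (hM s)
    rw [Matrix.det_mul, Matrix.det_mul, hg, one_mul, mul_one, toR_det, Matrix.det_diagonal] at h1
    exact h1.symm
  have hDne : ∀ s : S, (Mc γ (c s)).det ≠ 0 := by
    intro s h0
    have h1 := hdetprod s
    rw [h0, Int.cast_zero] at h1
    obtain ⟨i, _, hi⟩ := Finset.prod_eq_zero_iff.1 h1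
    exact hyne s i hi
  set N : ℕ := ⌈B ^ d⌉₊ with hN
  have hDle : ∀ s : S, (Mc γ (c s)).det.natAbs ≤ N := by
    intro s
    have h1 : |(((Mc γ (c s)).det : ℤ) : ℝ)| ≤ B ^ d := by
      rw [← hdetprod s, Finset.abs_prod]
      calc ∏ i, |y s (π i)| ≤ ∏ i, (B * Real.exp (s.1 (π i))) :=
            Finset.prod_le_prod (fun _ _ => abs_nonneg _) (fun i _ => hc s (π i))
        _ = B ^ d := by
            rw [Finset.prod_mul_distrib, ← Real.exp_sum, s.2.2, Real.exp_zero, mul_one]
            simp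
    have h2 : (((Mc γ (c s)).det.natAbs : ℕ) : ℝ) ≤ N := by
      rw [Nat.cast_natAbs, Int.cast_abs]
      exact h1.trans (Nat.le_ceil _)
    exact_mod_cast h2
  set W : ℕ := N.factorial with hW
  have : NeZero W := ⟨Nat.factorial_ne_zero N⟩
  have hDW : ∀ s : S, (Mc γ (c s)).det ∣ (W : ℤ) := by
    intro s
    rw [← Int.natAbs_dvd_natAbs, Int.natAbs_natCast]
    exact Nat.dvd_factorial (Int.natAbs_pos.2 (hDne s)) (hDle s)
  -- the finite set of keys
  let F : Type := (Finset.Icc (-(N : ℤ)) N) × (Fin k → ZMod W)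
  let f : S → F := fun s => (⟨(Mc γ (c s)).det, by
      have := hDle s
      rw [Finset.mem_Icc]
      constructor <;> omega⟩, fun l => ((c s l : ℤ) : ZMod W))
  have hrep : ∀ κ : F, ∃ C : ℝ, (∃ s, f s = κ) → ∃ s', f s' = κ ∧
      ∀ j, -Real.log |y s' j| ≤ C := by
    intro κ
    by_cases h : ∃ s, f s = κ
    · obtain ⟨s, hs⟩ := h
      refine ⟨∑ j, |Real.log (|y s j|)|, fun _ => ⟨s, hs, fun j => ?_⟩⟩
      calc -Real.log |y s j| ≤ |Real.log (|y s j|)| := neg_le_abs _
        _ ≤ ∑ j, |Real.log (|y s j|)| :=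
          Finset.single_le_sum (f := fun j => |Real.log (|y s j|)|)
            (fun j _ => abs_nonneg _) (Finset.mem_univ j)
    · exact ⟨0, fun h' => absurd h' h⟩
  choose Cκ hCκ using hrep
  set C : ℝ := ∑ κ, |Cκ κ| with hC
  have hCle : ∀ κ, Cκ κ ≤ C := fun κ => (le_abs_self _).trans
    (Finset.single_le_sum (f := fun κ => |Cκ κ|) (fun _ _ => abs_nonneg _) (Finset.mem_univ κ))
  have hC0 : 0 ≤ C := Finset.sum_nonneg fun _ _ => abs_nonneg _
  have hlogB : 0 ≤ Real.log B := Real.log_nonneg hB1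
  set C' : ℝ := 2 * Real.log B + 2 * C with hC'
  have hC'0 : 0 ≤ C' := by positivity
  refine ⟨d * C', fun σ hσ1 hσ2 => ?_⟩
  let s : S := ⟨fun j => σ j / 2, by
    rw [← Finset.sum_div, hσ1, zero_div], by rw [← Finset.sum_div, hσ2, zero_div]⟩
  obtain ⟨s2, hs2, hs2C⟩ := hCκ (f s) ⟨s, rfl⟩
  have hdet : (Mc γ (c s2)).det = (Mc γ (c s)).det := by
    have := congrArg (fun κ : F => (κ.1 : ℤ)) hs2
    exact this
  set D := (Mc γ (c s)).det with hD
  have hcong : ∀ l, ∃ q : ℤ, c s l = c s2 l + D * q := by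
    intro l
    have h1 : ((c s2 l : ℤ) : ZMod W) = ((c s l : ℤ) : ZMod W) := by
      have := congrArg (fun κ : F => κ.2 l) hs2
      exact this
    rw [ZMod.intCast_eq_intCast_iff_dvd_sub] at h1
    obtain ⟨q, hq⟩ := (hDW s).trans h1
    exact ⟨q, by rw [← hD] at hq; linarith⟩
  choose q hq using hcong
  have hMs : Mc γ (c s) = Mc γ (c s2) + D • Mc γ q := by
    rw [← Mc_add_smul]
    congr 1
    ext l
    exact hq l
  set U : Matrix (Fin d) (Fin d) ℤ := 1 + (Mc γ (c s2)).adjugate * Mc γ q with hU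
  have hMU : Mc γ (c s2) * U = Mc γ (c s) := by
    rw [hU, Matrix.mul_add, Matrix.mul_one, ← Matrix.mul_assoc, Matrix.mul_adjugate, hdet,
      Matrix.smul_mul, Matrix.one_mul, hMs]
  have hdetU : U.det = 1 := by
    have h1 := congrArg Matrix.det hMU
    rw [Matrix.det_mul, hdet, ← hD] at h1
    exact mul_left_cancel₀ (hDne s) (by rw [← hD, mul_one]; exact h1)
  have hgU : g * toR U = Matrix.diagonal (fun i => y s (π i) / y s2 (π i)) * g := by
    have h1 : Matrix.diagonal (fun i => y s2 (π i)) * (g * toR U)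
        = Matrix.diagonal (fun i => y s (π i)) * g := by
      rw [← Matrix.mul_assoc, ← hM s2, Matrix.mul_assoc, ← toR_mul, hMU, hM s]
    have h2 : Matrix.diagonal (fun i => (y s2 (π i))⁻¹) *
        (Matrix.diagonal (fun i => y s2 (π i)) * (g * toR U)) = g * toR U := by
      rw [← Matrix.mul_assoc, Matrix.diagonal_mul_diagonal]
      have : (fun i => (y s2 (π i))⁻¹ * y s2 (π i)) = fun _ => (1 : ℝ) := by
        ext i; exact inv_mul_cancel₀ (hyne s2 i)
      rw [this, Matrix.diagonal_one, Matrix.one_mul]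
    rw [← h2, h1, ← Matrix.mul_assoc, Matrix.diagonal_mul_diagonal]
    congr 1
    congr 1
    ext i
    rw [div_eq_inv_mul]
  have hgUU : g * toR (U * U)
      = Matrix.diagonal (fun i => (y s (π i) / y s2 (π i)) ^ 2) * g := by
    rw [toR_mul, ← Matrix.mul_assoc, hgU, Matrix.mul_assoc, hgU, ← Matrix.mul_assoc,
      Matrix.diagonal_mul_diagonal]
    congr 1
    congr 1
    ext i
    rw [pow_two]
  set τ : Fin k → ℝ := fun j => 2 * (Real.log |y s j| - Real.log |y s2 j|) with hτ
  have hexpτ : ∀ i, Real.exp (τ (π i)) = (y s (π i) / y s2 (π i)) ^ 2 := by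
    intro i
    have h1 : 0 < |y s (π i)| := abs_pos.2 (hyne s i)
    have h2 : 0 < |y s2 (π i)| := abs_pos.2 (hyne s2 i)
    simp only [hτ]
    rw [← Real.log_div h1.ne' h2.ne', two_mul, Real.exp_add, Real.exp_log (div_pos h1 h2),
      ← pow_two, ← abs_div, sq_abs]
  have hsumlog : ∀ s : S, ∑ i, Real.log |y s (π i)| = Real.log |(((Mc γ (c s)).det : ℤ) : ℝ)| := by
    intro s
    rw [← hdetprod s, Finset.abs_prod, Real.log_prod]
    intro i _
    exact (abs_pos.2 (hyne s i)).ne'
  have hsumτ : ∑ i, τ (π i) = 0 := by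
    simp only [hτ]
    rw [← Finset.mul_sum, Finset.sum_sub_distrib, hsumlog s, hsumlog s2, hdet, ← hD, sub_self,
      mul_zero]
  refine ⟨fun j => σ j - τ j, by rw [Finset.sum_sub_distrib, hσ2, hsumτ, sub_zero], ?_, U * U,
    by rw [Matrix.det_mul, hdetU, one_mul], ?_⟩
  · have hlow : ∀ i, -C' ≤ σ (π i) - τ (π i) := by
      intro i
      have h1 : Real.log |y s (π i)| ≤ Real.log B + σ (π i) / 2 := by
        have h2 := Real.log_le_log (abs_pos.2 (hyne s i)) (hc s (π i))
        rwa [Real.log_mul (by positivity) (Real.exp_pos _).ne', Real.log_exp] at h2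
      have h3 := (hs2C (π i)).trans (hCle _)
      simp only [hτ, hC']
      linarith
    intro i
    rw [abs_le]
    have hdR : (1 : ℝ) ≤ d := by exact_mod_cast (by omega : 1 ≤ d)
    have hsum0 : ∑ i, (σ (π i) - τ (π i) + C') = d * C' := by
      rw [Finset.sum_add_distrib, Finset.sum_sub_distrib, hσ2, hsumτ]
      simp
    have hup := Finset.single_le_sum (f := fun i => σ (π i) - τ (π i) + C')
      (fun i _ => by have := hlow i; linarith) (Finset.mem_univ i)
    rw [hsum0] at hup
    constructor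
    · have := hlow i
      nlinarith
    · linarith
  · rw [Matrix.mul_assoc, hgUU, ← Matrix.mul_assoc, Matrix.diagonal_mul_diagonal]
    congr 1
    congr 1
    ext i
    rw [← hexpτ i, ← Real.exp_add]
    congr 1
    ring

end

end Pool.Agent.Lib.MP_77ed85_an

namespace Pool.Agent.Lib.MP_77ed85_an

section

open Matrix Finset MeasureTheory

/-- The group `exp H` of the diagonal matrices with entries `exp s_i`, `s` in `H`. -/
def expGroup {d : ℕ} (H : Submodule ℝ (Fin d → ℝ)) : Set (Matrix (Fin d) (Fin d) ℝ) :=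
  {M | ∃ s ∈ H, M = Matrix.diagonal (fun i => Real.exp (s i))}

/-- The vectors with sum `0` that are constant on the fibres of `a`. -/
def blockSpace {d : ℕ} (a : Fin d → ℝ) : Submodule ℝ (Fin d → ℝ) where
  carrier := {s | ∑ i, s i = 0 ∧ ∀ i j, a i = a j → s i = s j}
  zero_mem' := ⟨by simp, fun _ _ _ => rfl⟩
  add_mem' := by
    rintro s t ⟨h1, h2⟩ ⟨h3, h4⟩
    refine ⟨?_, fun i j h => ?_⟩
    · simp only [Pi.add_apply]
      rw [Finset.sum_add_distrib, h1, h3, add_zero]
    · simp only [Pi.add_apply]; rw [h2 i j h, h4 i j h]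
  smul_mem' := by
    rintro c s ⟨h1, h2⟩
    refine ⟨?_, fun i j h => ?_⟩
    · simp only [Pi.smul_apply, smul_eq_mul]
      rw [← Finset.mul_sum, h1, mul_zero]
    · simp only [Pi.smul_apply]; rw [h2 i j h]

lemma expGroup_blockSpace {d : ℕ} (a : Fin d → ℝ) : expGroup (blockSpace a) = blockGroup a := by
  ext M
  constructor
  · rintro ⟨s, ⟨h1, h2⟩, rfl⟩
    exact ⟨s, h1, h2, rfl⟩
  · rintro ⟨s, h1, h2, rfl⟩
    exact ⟨s, ⟨h1, h2⟩, rfl⟩

section

variable {d : ℕ} (H : Submodule ℝ (Fin d → ℝ))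

/-- The exponential map of `H`. -/
noncomputable def Phi (s : H) : Matrix (Fin d) (Fin d) ℝ :=
  Matrix.diagonal (fun i => Real.exp ((s : Fin d → ℝ) i))

lemma Phi_add (s t : H) : Phi H (s + t)
    = Phi H s * Phi H t := by
  unfold Phi
  rw [Matrix.diagonal_mul_diagonal]
  congr 1
  ext i
  rw [← Real.exp_add]; rfl

lemma Phi_zero : Phi H 0 = 1 := by
  unfold Phi
  rw [← Matrix.diagonal_one]
  congr 1
  ext i
  simp

variable (hH : ∀ s ∈ H, ∑ i, s i = 0)

include hH in
lemma Phi_closedEmbedding : Topology.IsClosedEmbedding (Phi H) := by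
  obtain ⟨p, hp⟩ := H.subtype.exists_leftInverse_of_injective H.ker_subtype
  have hpc : Continuous p := p.continuous_of_finiteDimensional
  let ψ : Matrix (Fin d) (Fin d) ℝ → H := fun M =>
    p (fun i => Real.arsinh ((M i i - ∏ j ∈ univ.erase i, M j j) / 2))
  have hψ : Continuous ψ := by
    apply hpc.comp
    apply continuous_pi
    intro i
    apply Real.continuous_arsinh.comp
    fun_prop
  have hΦ : Continuous (Phi H) := by
    unfold Phi
    apply Continuous.matrix_diagonal
    apply continuous_pi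
    intro i
    exact Real.continuous_exp.comp ((continuous_apply i).comp continuous_subtype_val)
  apply Function.LeftInverse.isClosedEmbedding (f := ψ) _ hψ hΦ
  intro s
  have h1 : (fun i => Real.arsinh ((Phi H s i i - ∏ j ∈ univ.erase i, Phi H s j j) / 2))
      = (s : Fin d → ℝ) := by
    ext i
    have h2 : ∀ j, Phi H s j j = Real.exp ((s : Fin d → ℝ) j) := by
      intro j
      simp [Phi]
    simp only [h2]
    rw [← Real.exp_sum]
    have h3 : ∑ j ∈ univ.erase i, (s : Fin d → ℝ) j = -(s : Fin d → ℝ) i := by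
      have h4 := Finset.add_sum_erase univ (fun j => (s : Fin d → ℝ) j) (Finset.mem_univ i)
      rw [hH _ s.2] at h4
      linarith
    rw [h3, ← Real.sinh_eq, Real.arsinh_sinh]
  change p _ = s
  rw [h1]
  exact LinearMap.congr_fun hp s

lemma range_Phi : Set.range (Phi H) = expGroup H := by
  ext M
  constructor
  · rintro ⟨s, rfl⟩
    exact ⟨s, s.2, rfl⟩
  · rintro ⟨s, hs, rfl⟩
    exact ⟨⟨s, hs⟩, rfl⟩

lemma Phi_mem (s : H) : Phi H s ∈ expGroup H := ⟨s, s.2, rfl⟩

include hH in
lemma Phi_det (s : H) : (Phi H s).det = 1 := by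
  unfold Phi
  rw [Matrix.det_diagonal, ← Real.exp_sum, hH _ s.2, Real.exp_zero]

lemma Phi_neg (s : H) : (Phi H s)⁻¹ = Phi H (-s) := by
  apply Matrix.inv_eq_right_inv
  rw [← Phi_add, add_neg_cancel, Phi_zero]

variable {g : Matrix (Fin d) (Fin d) ℝ} (hg : g.det = 1)

/-- The logarithms of the stabiliser of `x` in `exp H`. -/
def stabLattice (H : Submodule ℝ (Fin d → ℝ)) (g : Matrix (Fin d) (Fin d) ℝ) (_hg : g.det = 1) :
    Submodule ℤ H :=
  AddSubgroup.toIntSubmodule
    { carrier := {s | ∃ γ : Matrix (Fin d) (Fin d) ℤ, γ.det = 1 ∧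
        Phi H s * g = g * toR γ}
      zero_mem' := ⟨1, by simp, by
        rw [Phi_zero, toR_eq, map_one, Matrix.one_mul, Matrix.mul_one]⟩
      add_mem' := by
        rintro s t ⟨γ, h1, h2⟩ ⟨δ, h3, h4⟩
        refine ⟨γ * δ, by rw [Matrix.det_mul, h1, h3, one_mul], ?_⟩
        rw [Phi_add, Matrix.mul_assoc, h4, ← Matrix.mul_assoc, h2, Matrix.mul_assoc, toR_mul]
      neg_mem' := by
        rintro s ⟨γ, h1, h2⟩
        refine ⟨γ.adjugate, by rw [Matrix.det_adjugate, h1, one_pow], ?_⟩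
        have h3 : toR γ * toR γ.adjugate = 1 := by
          rw [← toR_mul, Matrix.mul_adjugate, h1, one_smul, toR_eq, map_one]
        have h4 : Phi H (-s) * Phi H s
            = 1 := by
          rw [← Phi_add, neg_add_cancel, Phi_zero]
        calc Phi H (-s) * g
            = Phi H (-s) * ((g * toR γ) * toR γ.adjugate) := by
              rw [Matrix.mul_assoc, h3, Matrix.mul_one]
          _ = (Phi H (-s) * Phi H s)
              * g * toR γ.adjugate := by
              rw [← h2]; simp only [Matrix.mul_assoc]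
          _ = g * toR γ.adjugate := by rw [h4, Matrix.one_mul] }

end

end

end Pool.Agent.Lib.MP_77ed85_an

namespace Pool.Agent.Lib.MP_77ed85_an

section

open Matrix Finset MeasureTheory

lemma toR_emb {d : ℕ} : Topology.IsClosedEmbedding
    (toR : Matrix (Fin d) (Fin d) ℤ → Matrix (Fin d) (Fin d) ℝ) := by
  have h1 : Topology.IsClosedEmbedding (Pi.map fun _ : Fin d => (Int.cast : ℤ → ℝ)) :=
    Topology.IsClosedEmbedding.piMap fun _ => Int.isClosedEmbedding_coe_real
  have h2 : Topology.IsClosedEmbedding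
      (Pi.map fun _ : Fin d => (Pi.map fun _ : Fin d => (Int.cast : ℤ → ℝ))) :=
    Topology.IsClosedEmbedding.piMap fun _ => h1
  exact h2

instance {d : ℕ} : DiscreteTopology (Matrix (Fin d) (Fin d) ℤ) :=
  inferInstanceAs (DiscreteTopology (Fin d → Fin d → ℤ))

section

variable {d : ℕ} (H : Submodule ℝ (Fin d → ℝ)) (hH : ∀ s ∈ H, ∑ i, s i = 0)
variable {g : Matrix (Fin d) (Fin d) ℝ} (hg : g.det = 1)

include hH in
lemma stab_discrete : DiscreteTopology (stabLattice H g hg) := by
  choose f hf1 hf2 using fun s : stabLattice H g hg => s.2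
  have hu : IsUnit g.det := by rw [hg]; exact isUnit_one
  have hval : ∀ s : stabLattice H g hg, toR (f s) = g⁻¹ * (Phi H s.1 * g) := by
    intro s
    rw [hf2 s, ← Matrix.mul_assoc, Matrix.nonsing_inv_mul g hu, Matrix.one_mul]
  have hcont : Continuous f := by
    rw [toR_emb.isEmbedding.continuous_iff]
    have h1 : (toR ∘ f) = fun s => g⁻¹ * (Phi H s.1 * g) := by
      ext1 s; exact hval s
    rw [h1]
    have h2 : Continuous fun s : stabLattice H g hg => Phi H s.1 :=
      (Phi_closedEmbedding H hH).continuous.comp continuous_subtype_val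
    exact continuous_const.matrix_mul (h2.matrix_mul continuous_const)
  refine DiscreteTopology.of_continuous_injective hcont fun s t hst => ?_
  apply Subtype.ext
  apply (Phi_closedEmbedding H hH).injective
  have h1 : Phi H s.1 * g = Phi H t.1 * g := by rw [hf2 s, hf2 t, hst]
  have h2 := congrArg (· * g⁻¹) h1
  simp only [Matrix.mul_assoc, Matrix.mul_nonsing_inv g hu, Matrix.mul_one] at h2
  exact h2

lemma stab_span {r : ℝ} (hcc : ∀ s : H, ∃ l ∈ stabLattice H g hg, ‖s - l‖ ≤ r) :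
    Submodule.span ℝ (stabLattice H g hg : Set H) = ⊤ := by
  rw [eq_top_iff]
  intro s _
  set V := Submodule.span ℝ (stabLattice H g hg : Set H) with hV
  have hcl : IsClosed (V : Set H) := V.closed_of_finiteDimensional
  have : s ∈ closure (V : Set H) := by
    rw [Metric.mem_closure_iff]
    intro ε hε
    obtain ⟨n, hn⟩ := exists_nat_gt (|r| / ε)
    have hn0 : (0 : ℝ) < n := lt_of_le_of_lt (by positivity) hn
    obtain ⟨l, hl, hlr⟩ := hcc ((n : ℝ) • s)
    refine ⟨(n : ℝ)⁻¹ • l, V.smul_mem _ (Submodule.subset_span hl), ?_⟩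
    have h1 : s - (n : ℝ)⁻¹ • l = (n : ℝ)⁻¹ • ((n : ℝ) • s - l) := by
      rw [smul_sub, smul_smul, inv_mul_cancel₀ hn0.ne', one_smul]
    rw [dist_eq_norm, h1, norm_smul, norm_inv, Real.norm_of_nonneg hn0.le]
    have h2 : |r| < n * ε := by
      rwa [div_lt_iff₀ hε] at hn
    calc (n : ℝ)⁻¹ * ‖(n : ℝ) • s - l‖ ≤ (n : ℝ)⁻¹ * |r| :=
          mul_le_mul_of_nonneg_left (hlr.trans (le_abs_self r)) (by positivity)
      _ < (n : ℝ)⁻¹ * (n * ε) := mul_lt_mul_of_pos_left h2 (by positivity)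
      _ = ε := by field_simp
  rwa [hcl.closure_eq] at this

include hH in
lemma orbit_closed {r : ℝ} (hcc : ∀ s : H, ∃ l ∈ stabLattice H g hg, ‖s - l‖ ≤ r) :
    IsClosed (orbit g (expGroup H)) := by
  have hu : IsUnit g.det := by rw [hg]; exact isUnit_one
  let Γ : Set (Matrix (Fin d) (Fin d) ℝ) := toR '' {γ | γ.det = 1}
  have hΓ : IsClosed Γ := toR_emb.isClosedMap _ (isClosed_discrete _)
  let K : Set H := Metric.closedBall 0 r
  have hK : IsCompact K := isCompact_closedBall 0 r
  have : CompactSpace K := isCompact_iff_compactSpace.1 hK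
  let Z : Set (K × Matrix (Fin d) (Fin d) ℝ) := {p | g⁻¹ * (Phi H (-p.1.1) * p.2) ∈ Γ}
  have hZ : IsClosed Z := by
    apply hΓ.preimage
    have h2 : Continuous fun p : K × Matrix (Fin d) (Fin d) ℝ => Phi H (-p.1.1) :=
      (Phi_closedEmbedding H hH).continuous.comp
        (continuous_subtype_val.comp continuous_fst).neg
    exact continuous_const.matrix_mul (h2.matrix_mul continuous_snd)
  have heq : orbit g (expGroup H) = Prod.snd '' Z := by
    ext M
    constructor
    · rintro ⟨l, ⟨s, hs, rfl⟩, γ, hγ, rfl⟩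
      obtain ⟨l, ⟨δ, hδ1, hδ2⟩, hlr⟩ := hcc ⟨s, hs⟩
      refine ⟨(⟨⟨s, hs⟩ - l, by simpa [K] using hlr⟩, _), ?_, rfl⟩
      refine ⟨δ * γ, by
        change (δ * γ).det = 1
        rw [Matrix.det_mul, hδ1, hγ, one_mul], ?_⟩
      have h1 : -((⟨s, hs⟩ : H) - l) = l + -⟨s, hs⟩ := by abel
      change toR (δ * γ) = g⁻¹ * (Phi H (-((⟨s, hs⟩ : H) - l)) *
        (Phi H ⟨s, hs⟩ * g * toR γ))
      have h2 : Phi H (-(⟨s, hs⟩ : H)) * Phi H ⟨s, hs⟩ = 1 := by
        rw [← Phi_add, neg_add_cancel, Phi_zero]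
      calc toR (δ * γ) = (g⁻¹ * g) * (toR δ * toR γ) := by
            rw [Matrix.nonsing_inv_mul g hu, Matrix.one_mul, toR_mul]
        _ = g⁻¹ * ((g * toR δ) * toR γ) := by simp only [Matrix.mul_assoc]
        _ = g⁻¹ * (Phi H l * (Phi H (-(⟨s, hs⟩ : H)) * Phi H ⟨s, hs⟩) * g * toR γ) := by
            rw [h2, Matrix.mul_one, hδ2]
        _ = g⁻¹ * (Phi H (-((⟨s, hs⟩ : H) - l)) * (Phi H ⟨s, hs⟩ * g * toR γ)) := by
            rw [h1, Phi_add]; simp only [Matrix.mul_assoc]
    · rintro ⟨⟨s, M'⟩, ⟨γ, hγ, hγ2⟩, rfl⟩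
      refine ⟨Phi H s.1, Phi_mem H s.1, γ, hγ, ?_⟩
      have h2 : Phi H s.1 * Phi H (-s.1) = 1 := by
        rw [← Phi_add, add_neg_cancel, Phi_zero]
      change M' = Phi H s.1 * g * toR γ
      rw [hγ2]
      calc M' = (Phi H s.1 * Phi H (-s.1)) * M' := by rw [h2, Matrix.one_mul]
        _ = Phi H s.1 * ((g * g⁻¹) * (Phi H (-s.1) * M')) := by
            rw [Matrix.mul_nonsing_inv g hu, Matrix.one_mul, Matrix.mul_assoc]
        _ = Phi H s.1 * g * (g⁻¹ * (Phi H (-s.1) * M')) := by simp only [Matrix.mul_assoc]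
  rw [heq]
  exact isClosedMap_snd_of_compactSpace _ hZ

include hH in
lemma lattice_stab {r : ℝ} (hcc : ∀ s : H, ∃ l ∈ stabLattice H g hg, ‖s - l‖ ≤ r) :
    LatticeStabiliser g (expGroup H) := by
  have hu : IsUnit g.det := by rw [hg]; exact isUnit_one
  have hemb := Phi_closedEmbedding H hH
  have hclosed : IsClosed (expGroup H) := by
    rw [← range_Phi]; exact hemb.isClosed_range
  let P : H → Fin d → Fin d → ℝ := Phi H
  have hembP : Topology.IsClosedEmbedding P := hemb
  have hmeas : MeasurableEmbedding P := hembP.measurableEmbedding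
  have hdisc := stab_discrete H hH hg
  have : IsZLattice ℝ (stabLattice H g hg) := ⟨stab_span H hg hcc⟩
  have hfree := ZLattice.module_free ℝ (stabLattice H g hg)
  have hfinite := ZLattice.module_finite ℝ (stabLattice H g hg)
  let b0 := Module.Free.chooseBasis ℤ (stabLattice H g hg)
  let b := b0.ofZLatticeBasis ℝ (stabLattice H g hg)
  have hb : Submodule.span ℤ (Set.range b) = stabLattice H g hg :=
    b0.ofZLatticeBasis_span ℝ
  have hsub : ∀ x : H, x ∈ Submodule.span ℤ (Set.range b) → x ∈ stabLattice H g hg :=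
    fun x hx => by rw [hb] at hx; exact hx
  let D : Set H := ZSpan.fundamentalDomain b
  have hDm : MeasurableSet D := ZSpan.fundamentalDomain_measurableSet b
  -- conjugates of integer matrices
  have hconj : ∀ s : H, ∀ γ : Matrix (Fin d) (Fin d) ℤ, Phi H s * g = g * toR γ ↔
      g * toR γ * g⁻¹ = Phi H s := by
    intro s γ
    constructor
    · intro h
      rw [← h, Matrix.mul_assoc, Matrix.mul_nonsing_inv g hu, Matrix.mul_one]
    · intro h
      rw [← h, Matrix.mul_assoc, Matrix.nonsing_inv_mul g hu, Matrix.mul_one]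
  refine ⟨hclosed, ⟨0, H.zero_mem, by rw [← Matrix.diagonal_one]; congr 1; ext i; simp⟩, ?_, ?_,
    ?_, (Measure.addHaar : Measure H).map P, ?_, ?_, ?_, ?_, Phi H '' D, ?_, ?_, ?_, ?_, ?_⟩
  · rintro M ⟨s, hs, rfl⟩ N ⟨t, ht, rfl⟩
    exact ⟨s + t, H.add_mem hs ht, (Phi_add H ⟨s, hs⟩ ⟨t, ht⟩).symm⟩
  · rintro M ⟨s, hs, rfl⟩
    exact ⟨-s, H.neg_mem hs, Phi_neg H ⟨s, hs⟩⟩
  · rintro M ⟨s, hs, rfl⟩
    exact Phi_det H hH ⟨s, hs⟩
  · intro h0
    have h1 := hmeas.map_apply (Measure.addHaar : Measure H) Set.univ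
    rw [h0, Set.preimage_univ] at h1
    have h2 : (Measure.addHaar : Measure H) Set.univ ≠ 0 :=
      (isOpen_univ.measure_pos _ Set.univ_nonempty).ne'
    exact h2 h1.symm
  · rw [hmeas.map_apply]
    have : P ⁻¹' (expGroup H)ᶜ = ∅ := by
      ext s
      simp only [Set.mem_preimage, Set.mem_compl_iff, Set.mem_empty_iff_false, iff_false, not_not]
      exact Phi_mem H s
    rw [this, measure_empty]
  · intro K hK
    rw [hmeas.map_apply]
    have : IsCompact (P ⁻¹' K) := hembP.isCompact_preimage hK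
    exact this.measure_lt_top
  · rintro l ⟨t, ht, rfl⟩ S hS
    rw [hmeas.map_apply, hmeas.map_apply, hmeas.map_apply]
    constructor
    · have h1 : P ⁻¹' {M : Matrix (Fin d) (Fin d) ℝ | Matrix.diagonal (fun i => Real.exp (t i)) * M
          ∈ S} = (fun s : H => (⟨t, ht⟩ : H) + s) ⁻¹' (P ⁻¹' S) := by
        ext s
        change Phi H ⟨t, ht⟩ * Phi H s ∈ S ↔ Phi H (⟨t, ht⟩ + s) ∈ S
        rw [Phi_add]
      rw [h1, measure_preimage_add]
    · have h1 : P ⁻¹' {M : Matrix (Fin d) (Fin d) ℝ | M * Matrix.diagonal (fun i => Real.exp (t i))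
          ∈ S} = (fun s : H => s + (⟨t, ht⟩ : H)) ⁻¹' (P ⁻¹' S) := by
        ext s
        change Phi H s * Phi H ⟨t, ht⟩ ∈ S ↔ Phi H (s + ⟨t, ht⟩) ∈ S
        rw [Phi_add]
      rw [h1, measure_preimage_add_right]
  · exact hmeas.measurableSet_image.2 hDm
  · rintro M ⟨s, _, rfl⟩
    exact Phi_mem H s
  · rw [hmeas.map_apply]
    change (Measure.addHaar : Measure H) (P ⁻¹' (P '' D)) < ⊤
    rw [Set.preimage_image_eq _ hembP.injective]
    exact (ZSpan.fundamentalDomain_isBounded b).measure_lt_top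
  · rintro l ⟨s, hs, rfl⟩
    obtain ⟨v, hv, _⟩ := ZSpan.exist_unique_vadd_mem_fundamentalDomain b (⟨s, hs⟩ : H)
    have hvm : (v : H) ∈ stabLattice H g hg := hsub _ v.2
    obtain ⟨γ, hγ1, hγ2⟩ := hvm
    have hγ3 := (hconj _ _).1 hγ2
    refine ⟨γ, hγ1, ?_, ?_⟩
    · change g * toR γ * g⁻¹ ∈ expGroup H
      rw [hγ3]; exact Phi_mem H _
    · change Phi H ⟨s, hs⟩ * (g * toR γ * g⁻¹) ∈ Phi H '' D
      rw [hγ3, ← Phi_add]
      refine ⟨_, ?_, rfl⟩
      have : (⟨s, hs⟩ : H) + (v : H) = v +ᵥ (⟨s, hs⟩ : H) := by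
        rw [add_comm]; rfl
      rw [this]; exact hv
  · intro γ hγ1 hγL hγne M hM hMF
    obtain ⟨t, ht, hγt⟩ := hγL
    have hγt' : g * toR γ * g⁻¹ = Phi H ⟨t, ht⟩ := hγt
    obtain ⟨s, hsD, rfl⟩ := hM
    have hmem : (⟨t, ht⟩ : H) ∈ Submodule.span ℤ (Set.range b) := by
      rw [hb]
      exact ⟨γ, hγ1, (hconj _ _).2 hγt'⟩
    have hMF' : Phi H s * (g * toR γ * g⁻¹) ∈ Phi H '' D := hMF
    rw [hγt', ← Phi_add] at hMF'
    obtain ⟨s', hs'D, hs'⟩ := hMF'
    have hs'' : s' = s + ⟨t, ht⟩ := hemb.injective hs'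
    obtain ⟨v, hv, hvu⟩ := ZSpan.exist_unique_vadd_mem_fundamentalDomain b s
    have e1 : (0 : Submodule.span ℤ (Set.range b)) = v := by
      apply hvu
      change (0 : Submodule.span ℤ (Set.range b)) +ᵥ s ∈ D
      rw [zero_vadd]; exact hsD
    have e2 : (⟨⟨t, ht⟩, hmem⟩ : Submodule.span ℤ (Set.range b)) = v := by
      apply hvu
      change (⟨t, ht⟩ : H) + s ∈ D
      rw [add_comm, ← hs'']; exact hs'D
    rw [← e1] at e2
    have e3 : (⟨t, ht⟩ : H) = 0 := congrArg Subtype.val e2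
    apply hγne
    change g * toR γ * g⁻¹ = 1
    rw [hγt', e3, Phi_zero]

end

end

end Pool.Agent.Lib.MP_77ed85_an

namespace Pool.Agent.Lib.MP_77ed85_an

section

open Matrix Finset Polynomial

section

variable {d : ℕ} {g : Matrix (Fin d) (Fin d) ℝ} {a : Fin d → ℝ}
  {γ : Matrix (Fin d) (Fin d) ℤ}

lemma fibres (hslow : RateBelowOne g) (hg : g.det = 1)
    (hfix : g * toR γ = Matrix.diagonal a * g) :
    ∃ m : ℕ, (∀ i, (univ.filter (fun j => a j = a i)).card = m) ∧
      ∀ i, γ.charpoly.map (Int.castRingHom ℚ) = minpoly ℚ (a i) ^ m := by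
  have hu : IsUnit g.det := by rw [hg]; exact isUnit_one
  apply equal_fibres γ.charpoly
  · have h1 : (toR γ).charpoly = γ.charpoly.map (Int.castRingHom ℝ) :=
      Matrix.charpoly_map γ (Int.castRingHom ℝ)
    rw [← h1, ← Matrix.charpoly_diagonal]
    have h2 : toR γ = g⁻¹ * (Matrix.diagonal a * g) := by
      rw [← hfix, ← Matrix.mul_assoc, Matrix.nonsing_inv_mul g hu, Matrix.one_mul]
    rw [h2, Matrix.charpoly_mul_comm, Matrix.mul_assoc, Matrix.mul_nonsing_inv g hu,
      Matrix.mul_one]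
  · intro Q i hi j
    have h1 := inter hfix Q
    have h2 := eq_zero_of hslow hg (aeval γ Q) (fun i => aeval (a i) Q) h1 i hi
    exact congrFun h2 j

lemma fibres_dvd {m : ℕ} (hd : 0 < d) (hm : ∀ i, (univ.filter (fun j => a j = a i)).card = m) :
    m ∣ d ∧ ((∃ i j, a i ≠ a j) → m < d) ∧ ((∀ i j, a i = a j) → m = d) ∧ 0 < m := by
  classical
  refine ⟨?_, fun hne => ?_, fun hc => ?_, ?_⟩
  · have h1 := Finset.card_eq_sum_card_image a (univ : Finset (Fin d))
    rw [Finset.card_univ, Fintype.card_fin] at h1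
    rw [h1]
    apply Finset.dvd_sum
    intro x hx
    obtain ⟨i, _, rfl⟩ := Finset.mem_image.1 hx
    rw [hm i]
  · obtain ⟨i, j, hij⟩ := hne
    rw [← hm i]
    have : (univ.filter (fun j => a j = a i)) ⊂ univ := by
      rw [Finset.ssubset_iff_of_subset (Finset.filter_subset _ _)]
      exact ⟨j, Finset.mem_univ j, by simp [Ne.symm hij]⟩
    have := Finset.card_lt_card this
    rwa [Finset.card_univ, Fintype.card_fin] at this
  · rw [← hm ⟨0, hd⟩, Finset.filter_true_of_mem (fun j _ => hc j _), Finset.card_univ,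
      Fintype.card_fin]
  · rw [← hm ⟨0, hd⟩, Finset.card_pos]
    exact ⟨⟨0, hd⟩, by simp⟩

lemma block_cocompact (hd : 2 ≤ d) (hslow : RateBelowOne g) (hg : g.det = 1)
    (hfix : g * toR γ = Matrix.diagonal a * g) {m : ℕ}
    (hm : ∀ i, (univ.filter (fun j => a j = a i)).card = m) (hm0 : 0 < m) :
    ∃ r : ℝ, ∀ s : blockSpace a, ∃ l ∈ stabLattice (blockSpace a) g hg, ‖s - l‖ ≤ r := by
  classical
  let I : Finset ℝ := univ.image a
  let E : I ≃ Fin I.card := I.equivFin
  let e : Fin I.card → ℝ := fun j => (E.symm j : ℝ)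
  have he : Function.Injective e := fun x y h => E.symm.injective (Subtype.ext h)
  let π : Fin d → Fin I.card := fun i => E ⟨a i, Finset.mem_image_of_mem a (Finset.mem_univ i)⟩
  have heπ : ∀ i, e (π i) = a i := fun i => by simp [e, π]
  have hπ : Function.Surjective π := by
    intro j
    obtain ⟨i, _, hi⟩ := Finset.mem_image.1 (E.symm j).2
    refine ⟨i, he ?_⟩
    rw [heπ]
    exact hi
  have hπa : ∀ i j, π i = π j ↔ a i = a j := by
    intro i j
    constructor
    · intro h; rw [← heπ i, ← heπ j, h]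
    · intro h
      apply he
      rw [heπ, heπ, h]
  have hfix' : g * toR γ = Matrix.diagonal (fun i => e (π i)) * g := by
    rw [hfix]; congr 2; ext i; exact (heπ i).symm
  obtain ⟨r, hr⟩ := cocompact hd hslow hg γ e he π hπ hfix'
  choose ι hι using hπ
  refine ⟨max r 0, fun s => ?_⟩
  obtain ⟨s, hs1, hs2⟩ := s
  let σ : Fin I.card → ℝ := fun j => s (ι j)
  have hσ : ∀ i, σ (π i) = s i := by
    intro i
    apply hs2
    rw [← hπa, hι]
  have hsum2 : ∑ i, σ (π i) = 0 := by
    simp only [hσ]; exact hs1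
  have hsum1 : ∑ j, σ j = 0 := by
    have h1 : ∑ i, σ (π i) = ∑ j, ∑ i ∈ univ.filter (fun i => π i = j), σ (π i) :=
      (Finset.sum_fiberwise univ π (fun i => σ (π i))).symm
    have h2 : ∀ j, ∑ i ∈ univ.filter (fun i => π i = j), σ (π i) = m * σ j := by
      intro j
      rw [Finset.sum_congr rfl (g := fun _ => σ j)
        (fun i hi => by rw [(Finset.mem_filter.1 hi).2])]
      rw [Finset.sum_const, nsmul_eq_mul]
      congr 2
      rw [← hm (ι j)]
      congr 1
      ext i
      simp only [Finset.mem_filter, Finset.mem_univ, true_and]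
      rw [← hπa, hι]
    rw [Finset.sum_congr rfl (fun j _ => h2 j), ← Finset.mul_sum, hsum2] at h1
    have hm' : (m : ℝ) ≠ 0 := by exact_mod_cast hm0.ne'
    exact (mul_eq_zero.1 h1.symm).resolve_left hm'
  obtain ⟨s', hs'1, hs'2, γ', hγ', hγ'2⟩ := hr σ hsum1 hsum2
  have hmem : (fun i => s' (π i)) ∈ blockSpace a :=
    ⟨hs'1, fun i j h => by
      change s' (π i) = s' (π j)
      rw [(hπa i j).2 h]⟩
  refine ⟨⟨s, hs1, hs2⟩ - ⟨_, hmem⟩, ⟨γ', hγ', ?_⟩, ?_⟩
  · have h1 : Phi (blockSpace a) ⟨s, hs1, hs2⟩ * g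
        = Phi (blockSpace a) ⟨_, hmem⟩ * (g * toR γ') := by
      rw [← Matrix.mul_assoc]
      change Matrix.diagonal (fun i => Real.exp (s i)) * g =
        Matrix.diagonal (fun i => Real.exp (s' (π i))) * g * toR γ'
      rw [← hγ'2]
      congr 2
      ext i
      rw [hσ]
    rw [sub_eq_add_neg, add_comm, Phi_add, Matrix.mul_assoc, h1, ← Matrix.mul_assoc, ← Phi_add,
      neg_add_cancel, Phi_zero, Matrix.one_mul]
  · rw [sub_sub_cancel]
    change ‖(fun i => s' (π i))‖ ≤ max r 0
    rw [pi_norm_le_iff_of_nonneg (le_max_right _ _)]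
    intro i
    rw [Real.norm_eq_abs]
    exact (hs'2 i).trans (le_max_left _ _)

end

end

end Pool.Agent.Lib.MP_77ed85_an

namespace Pool.Agent.Lib.MP_77ed85_an

section

open Matrix Finset

lemma centraliser_orbit_closed {d : ℕ} {g : Matrix (Fin d) (Fin d) ℝ} {a : Fin d → ℝ}
    {γ : Matrix (Fin d) (Fin d) ℤ} (hg : g.det = 1)
    (hfix : g * toR γ = Matrix.diagonal a * g) : IsClosed (orbit g (centraliser a)) := by
  have hu : IsUnit g.det := by rw [hg]; exact isUnit_one
  -- the integer matrix attached to a point of the orbit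
  let f : Matrix (Fin d) (Fin d) ℝ → Matrix (Fin d) (Fin d) ℝ :=
    fun M => M.adjugate * (Matrix.diagonal a * M)
  have hf : Continuous f :=
    (continuous_id.matrix_adjugate).matrix_mul (continuous_const.matrix_mul continuous_id)
  have hdet : ∀ M ∈ orbit g (centraliser a), M.det = 1 := by
    rintro M ⟨h, ⟨hh1, _⟩, δ, hδ, rfl⟩
    change (h * g * toR δ).det = 1
    rw [Matrix.det_mul, Matrix.det_mul, hh1, hg, toR_det, hδ]; simp
  have hint : ∀ M ∈ orbit g (centraliser a), f M ∈ Set.range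
      (toR : Matrix (Fin d) (Fin d) ℤ → Matrix (Fin d) (Fin d) ℝ) := by
    rintro M ⟨h, ⟨hh1, hh2⟩, δ, hδ, rfl⟩
    refine ⟨δ.adjugate * (γ * δ), ?_⟩
    have e1 : Matrix.diagonal a * (h * g * toR δ) = h * g * toR δ * toR (δ.adjugate * (γ * δ)) := by
      have e2 : toR δ * toR δ.adjugate = 1 := by
        rw [← toR_mul, Matrix.mul_adjugate, hδ, one_smul, toR_eq, map_one]
      calc Matrix.diagonal a * (h * g * toR δ) = (Matrix.diagonal a * h) * g * toR δ := by
            simp only [Matrix.mul_assoc]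
        _ = h * (Matrix.diagonal a * g) * toR δ := by rw [← hh2]; simp only [Matrix.mul_assoc]
        _ = h * (g * toR γ) * toR δ := by rw [hfix]
        _ = h * g * ((toR δ * toR δ.adjugate) * (toR γ * toR δ)) := by
            rw [e2, Matrix.one_mul]; simp only [Matrix.mul_assoc]
        _ = h * g * toR δ * toR (δ.adjugate * (γ * δ)) := by
            rw [toR_mul, toR_mul]; simp only [Matrix.mul_assoc]
    change toR (δ.adjugate * (γ * δ)) = (h * g * toR δ).adjugate *
      (Matrix.diagonal a * (h * g * toR δ))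
    have e3 : (h * g * toR δ).det = 1 := hdet _ ⟨h, ⟨hh1, hh2⟩, δ, hδ, rfl⟩
    rw [e1, ← Matrix.mul_assoc (h * g * toR δ).adjugate, Matrix.adjugate_mul, e3, one_smul,
      Matrix.one_mul]
  rw [← isOpen_compl_iff, isOpen_iff_mem_nhds]
  intro M hM
  by_contra hcon
  -- `M` is in the closure
  have hcl : M ∈ closure (orbit g (centraliser a)) := by
    rw [mem_closure_iff_nhds]
    intro V hV
    by_contra hemp
    apply hcon
    filter_upwards [hV] with x hx hx'
    exact hemp ⟨x, hx, hx'⟩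
  have hMdet : M.det = 1 := by
    have hc : IsClosed {M : Matrix (Fin d) (Fin d) ℝ | M.det = 1} :=
      isClosed_eq continuous_id.matrix_det continuous_const
    exact closure_minimal hdet hc hcl
  have hMint : f M ∈ Set.range (toR : Matrix (Fin d) (Fin d) ℤ → Matrix (Fin d) (Fin d) ℝ) := by
    have hc := toR_emb (d := d).isClosed_range.preimage hf
    exact closure_minimal hint hc hcl
  obtain ⟨N, hN⟩ := hMint
  -- points of the orbit near `M` have the same integer matrix
  have hopen : IsOpen {M' : Matrix (Fin d) (Fin d) ℝ | ∀ i j, |f M' i j - f M i j| < 1} := by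
    simp only [Set.ofPred_forall]
    refine isOpen_iInter_of_finite fun i => isOpen_iInter_of_finite fun j => ?_
    apply isOpen_lt _ continuous_const
    apply Continuous.abs
    apply Continuous.sub _ continuous_const
    exact (continuous_apply j).comp ((continuous_apply i).comp hf)
  obtain ⟨M', hM'1, hM'2⟩ := mem_closure_iff.1 hcl _ hopen (by simp)
  obtain ⟨N', hN'⟩ := hint M' hM'2
  have hNN : N' = N := by
    ext i j
    have h1 := hM'1 i j
    rw [← hN', ← hN] at h1
    simp only [Matrix.map_apply] at h1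
    have h2 : |N' i j - N i j| < 1 := by exact_mod_cast h1
    have h3 := Int.abs_lt_one_iff.1 h2
    omega
  have hfeq : f M' = f M := by rw [← hN', ← hN, hNN]
  have hM'det := hdet M' hM'2
  apply hM
  obtain ⟨h, ⟨hh1, hh2⟩, δ, hδ, hM'eq⟩ := hM'2
  -- `k = M M'^{-1}` commutes with `diag(a)`
  have hk1 : M'.adjugate * M' = 1 := by rw [Matrix.adjugate_mul, hM'det, one_smul]
  have hk2 : M * M.adjugate = 1 := by rw [Matrix.mul_adjugate, hMdet, one_smul]
  have hk3 : M' * M'.adjugate = 1 := by rw [Matrix.mul_adjugate, hM'det, one_smul]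
  have hcomm : M * M'.adjugate * Matrix.diagonal a = Matrix.diagonal a * (M * M'.adjugate) := by
    calc M * M'.adjugate * Matrix.diagonal a
        = M * (M'.adjugate * (Matrix.diagonal a * (M' * M'.adjugate))) := by
          rw [hk3, Matrix.mul_one, Matrix.mul_assoc]
      _ = M * f M' * M'.adjugate := by simp only [f, Matrix.mul_assoc]
      _ = M * f M * M'.adjugate := by rw [hfeq]
      _ = (M * M.adjugate) * (Matrix.diagonal a * M) * M'.adjugate := by
          simp only [f, Matrix.mul_assoc]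
      _ = Matrix.diagonal a * (M * M'.adjugate) := by
          rw [hk2, Matrix.one_mul, Matrix.mul_assoc]
  refine ⟨M * M'.adjugate * h, ⟨?_, ?_⟩, δ, hδ, ?_⟩
  · rw [Matrix.det_mul, Matrix.det_mul, hMdet, Matrix.det_adjugate, hM'det, hh1]; simp
  · rw [Matrix.mul_assoc, hh2, ← Matrix.mul_assoc, hcomm, Matrix.mul_assoc]
  · have : M * M'.adjugate * h * g * δ.map (fun z : ℤ => (z : ℝ))
        = M * (M'.adjugate * (h * g * δ.map (fun z : ℤ => (z : ℝ)))) := by
      simp only [Matrix.mul_assoc]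
    rw [this, ← hM'eq, hk1, Matrix.mul_one]

end

end Pool.Agent.Lib.MP_77ed85_an

namespace Pool.Agent.Lib.MP_77ed85_an

section

open Matrix Finset

lemma short_vector {d : ℕ} {g : Matrix (Fin d) (Fin d) ℝ} (hg : g.det = 1) :
    ∃ c : ℝ, 0 < c ∧ ∀ v : Fin d → ℤ, v ≠ 0 → c ≤ ‖g.mulVec (fun j => (v j : ℝ))‖ := by
  have hu : IsUnit g.det := by rw [hg]; exact isUnit_one
  set C : ℝ := 1 + ∑ i, ∑ j, |g⁻¹ i j| with hC
  have hC0 : 0 < C := by positivity
  refine ⟨1 / C, by positivity, fun v hv => ?_⟩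
  set w := g.mulVec (fun j => (v j : ℝ)) with hw
  have h1 : (g⁻¹).mulVec w = fun j => (v j : ℝ) := by
    rw [hw, Matrix.mulVec_mulVec, Matrix.nonsing_inv_mul g hu, Matrix.one_mulVec]
  obtain ⟨i, hi⟩ := Function.ne_iff.1 hv
  have h2 : (1 : ℝ) ≤ |(v i : ℝ)| := by
    have : (1 : ℤ) ≤ |v i| := Int.one_le_abs hi
    exact_mod_cast this
  have h3 : |(v i : ℝ)| ≤ (∑ j, |g⁻¹ i j|) * ‖w‖ := by
    have h4 := congrFun h1 i
    simp only [Matrix.mulVec, dotProduct] at h4
    rw [← h4, Finset.sum_mul]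
    refine (Finset.abs_sum_le_sum_abs _ _).trans (Finset.sum_le_sum fun j _ => ?_)
    rw [abs_mul]
    exact mul_le_mul_of_nonneg_left (norm_le_pi_norm w j) (abs_nonneg _)
  have h5 : (∑ j, |g⁻¹ i j|) ≤ C := by
    have := Finset.single_le_sum (f := fun i => ∑ j, |g⁻¹ i j|)
      (fun i _ => Finset.sum_nonneg fun j _ => abs_nonneg _) (Finset.mem_univ i)
    linarith
  rw [div_le_iff₀ hC0, mul_comm]
  calc (1 : ℝ) ≤ |(v i : ℝ)| := h2
    _ ≤ (∑ j, |g⁻¹ i j|) * ‖w‖ := h3
    _ ≤ C * ‖w‖ := mul_le_mul_of_nonneg_right h5 (norm_nonneg _)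

lemma bounded_orbit {d : ℕ} (H : Submodule ℝ (Fin d → ℝ))
    {g : Matrix (Fin d) (Fin d) ℝ} (hg : g.det = 1)
    {r : ℝ} (hcc : ∀ s : H, ∃ l ∈ stabLattice H g hg, ‖s - l‖ ≤ r) :
    ∃ c : ℝ, 0 < c ∧ ∀ s ∈ H, ∀ v : Fin d → ℤ, v ≠ 0 →
      c ≤ ‖(Matrix.diagonal (fun i => Real.exp (s i)) * g).mulVec (fun i => (v i : ℝ))‖ := by
  obtain ⟨c, hc0, hc⟩ := short_vector hg
  refine ⟨Real.exp (-r) * c, by positivity, fun s hs v hv => ?_⟩
  obtain ⟨l, ⟨δ, hδ1, hδ2⟩, hlr⟩ := hcc ⟨s, hs⟩
  have hδv : δ.mulVec v ≠ 0 := by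
    intro h0
    have h1 : (δ.adjugate * δ).mulVec v = 0 := by
      rw [← Matrix.mulVec_mulVec, h0, Matrix.mulVec_zero]
    rw [Matrix.adjugate_mul, hδ1, one_smul, Matrix.one_mulVec] at h1
    exact hv h1
  have h1 := hc _ hδv
  set w := g.mulVec (fun j => ((δ.mulVec v) j : ℝ)) with hw
  have hcast : (fun j => ((δ.mulVec v) j : ℝ)) = (toR δ).mulVec (fun j => (v j : ℝ)) := by
    ext j
    simp [Matrix.mulVec, dotProduct]
  set u : Fin d → ℝ := ((⟨s, hs⟩ - l : H) : Fin d → ℝ) with hu
  have hur : ‖u‖ ≤ r := hlr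
  have h2 : (Matrix.diagonal (fun i => Real.exp (s i)) * g).mulVec (fun i => (v i : ℝ))
      = (Matrix.diagonal (fun i => Real.exp (u i))).mulVec w := by
    have e1 : Phi H ⟨s, hs⟩ * g = Phi H (⟨s, hs⟩ - l) * (g * toR δ) := by
      rw [← hδ2, ← Matrix.mul_assoc, ← Phi_add, sub_add_cancel]
    have e2 : Matrix.diagonal (fun i => Real.exp (s i)) * g
        = Matrix.diagonal (fun i => Real.exp (u i)) * (g * toR δ) := e1
    rw [e2, hw, hcast, ← Matrix.mulVec_mulVec, ← Matrix.mulVec_mulVec]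
  rw [h2]
  have h3 : ‖w‖ ≤ Real.exp r * ‖(Matrix.diagonal (fun i => Real.exp (u i))).mulVec w‖ := by
    rw [pi_norm_le_iff_of_nonneg (by positivity)]
    intro i
    have h4 : w i = Real.exp (-(u i)) * ((Matrix.diagonal (fun i => Real.exp (u i))).mulVec w) i := by
      rw [Matrix.mulVec_diagonal, ← mul_assoc, ← Real.exp_add]
      simp
    rw [h4, norm_mul, Real.norm_of_nonneg (Real.exp_nonneg _)]
    have h5 : -(u i) ≤ r := by
      have := norm_le_pi_norm u i
      rw [Real.norm_eq_abs] at this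
      linarith [neg_le_abs (u i)]
    exact mul_le_mul (Real.exp_le_exp.2 h5) (norm_le_pi_norm _ i) (norm_nonneg _)
      (Real.exp_nonneg _)
  calc Real.exp (-r) * c ≤ Real.exp (-r) * ‖w‖ := by gcongr
    _ ≤ Real.exp (-r) * (Real.exp r * ‖(Matrix.diagonal (fun i => Real.exp (u i))).mulVec w‖) := by
        gcongr
    _ = ‖(Matrix.diagonal (fun i => Real.exp (u i))).mulVec w‖ := by
        rw [← mul_assoc, ← Real.exp_add]; simp

end

end Pool.Agent.Lib.MP_77ed85_an

namespace Pool.Agent.Lib.MP_77ed85_an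

section

open Matrix Finset

lemma endo_scalar {d : ℕ} (g : Matrix (Fin d) (Fin d) ℝ) : IsEndomorphism g (fun _ => 1) :=
  ⟨1, by
    have h1 : (1 : Matrix (Fin d) (Fin d) ℤ).map (fun z : ℤ => (z : ℝ)) = 1 := by
      change toR 1 = 1
      rw [toR_eq, map_one]
    rw [h1, Matrix.mul_one, Matrix.diagonal_one, Matrix.one_mul]⟩

lemma endo_comb {d : ℕ} {g : Matrix (Fin d) (Fin d) ℝ} {a b : Fin d → ℝ}
    (ha : IsEndomorphism g a) (hb : IsEndomorphism g b) (n : ℤ) :
    IsEndomorphism g (fun i => b i + n * a i) := by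
  obtain ⟨γ, hγ⟩ := ha
  obtain ⟨δ, hδ⟩ := hb
  refine ⟨δ + n • γ, ?_⟩
  have h1 : (δ + n • γ).map (fun z : ℤ => (z : ℝ))
      = δ.map (fun z : ℤ => (z : ℝ)) + (n : ℝ) • γ.map (fun z : ℤ => (z : ℝ)) := by
    ext i j
    simp only [Matrix.map_apply, Matrix.add_apply, Matrix.smul_apply, smul_eq_mul, Int.cast_add,
      Int.cast_mul]
  have h2 : Matrix.diagonal (fun i => b i + n * a i)
      = Matrix.diagonal b + (n : ℝ) • Matrix.diagonal a := by
    ext i j
    simp only [Matrix.add_apply, Matrix.smul_apply, Matrix.diagonal_apply, smul_eq_mul]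
    split_ifs <;> simp
  rw [h1, h2, Matrix.add_mul, Matrix.mul_add, hδ, Matrix.smul_mul, Matrix.mul_smul, hγ]

/-- There is an endomorphism that separates as many coordinates as possible. -/
lemma exists_finest {d : ℕ} (g : Matrix (Fin d) (Fin d) ℝ) :
    ∃ a, IsEndomorphism g a ∧ ∀ b, IsEndomorphism g b → ∀ i j, a i = a j → b i = b j := by
  classical
  let P : (Fin d → ℝ) → Finset (Fin d × Fin d) := fun a =>
    univ.filter (fun p => a p.1 ≠ a p.2)
  by_contra hcon
  push Not at hcon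
  have step : ∀ a, IsEndomorphism g a → ∃ a', IsEndomorphism g a' ∧ (P a).card < (P a').card := by
    intro a ha
    obtain ⟨b, hb, i, j, hij, hbij⟩ := hcon a ha
    -- the bad integers
    let bad : Set ℤ := ⋃ p ∈ P a, {n : ℤ | b p.1 + n * a p.1 = b p.2 + n * a p.2}
    have hbad : bad.Finite := by
      apply Set.Finite.biUnion (P a).finite_toSet
      intro p hp
      have hp' : a p.1 ≠ a p.2 := by
        have := Finset.mem_filter.1 (Finset.mem_coe.1 hp)
        exact this.2
      apply Set.Subsingleton.finite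
      intro n hn n' hn'
      simp only [Set.mem_ofPred_eq] at hn hn'
      have h1 : ((n : ℝ) - n') * (a p.1 - a p.2) = 0 := by linear_combination hn - hn'
      rcases mul_eq_zero.1 h1 with h | h
      · have : (n : ℝ) = n' := by linarith
        exact_mod_cast this
      · exact absurd (sub_eq_zero.1 h) hp'
    obtain ⟨n, hn⟩ := hbad.exists_notMem
    refine ⟨fun i => b i + n * a i, endo_comb ha hb n, ?_⟩
    apply Finset.card_lt_card
    rw [Finset.ssubset_iff_of_subset]
    · refine ⟨(i, j), ?_, ?_⟩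
      · simp only [P, Finset.mem_filter, Finset.mem_univ, true_and, ne_eq]
        rw [hij]
        intro h
        exact hbij (add_right_cancel h)
      · simp [P, hij]
    · intro p hp
      simp only [P, Finset.mem_filter, Finset.mem_univ, true_and, ne_eq]
      intro h
      apply hn
      exact Set.mem_biUnion (show p ∈ (P a : Set (Fin d × Fin d)) from hp) h
  have all : ∀ n : ℕ, ∃ a, IsEndomorphism g a ∧ n ≤ (P a).card := by
    intro n
    induction n with
    | zero => exact ⟨_, endo_scalar g, Nat.zero_le _⟩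
    | succ n ih =>
      obtain ⟨a, ha, hn⟩ := ih
      obtain ⟨a', ha', hn'⟩ := step a ha
      exact ⟨a', ha', by omega⟩
  obtain ⟨a, _, ha⟩ := all (Fintype.card (Fin d × Fin d) + 1)
  have := Finset.card_le_univ (P a)
  omega

end

end Pool.Agent.Lib.MP_77ed85_an
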